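import Pool.Agent.K3h69.KB.Stm

/-!
# Blichfeldt's bound for hermitian forms over the Eisenstein integers
-/

set_option autoImplicit false
set_option linter.style.haveILetI false

namespace Pool.Agent.K3h85.KB

open Matrix Pool.Agent.R895 Complex MeasureTheory
open scoped ComplexOrder MatrixOrder

/-! ### A square root of the form -/

theorem exists_factor {n : ℕ} {H : Matrix (Fin n) (Fin n) ℂ} (hH : Pd H) :
    ∃ B : Matrix (Fin n) (Fin n) ℂ, H = Bᴴ * B ∧ Complex.normSq B.det = H.det.re ∧ B.det ≠ 0 ∧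
      ∀ x, q H x = ∑ i, ‖(B *ᵥ x) i‖ ^ 2 := by
  have h1 : H.PosSemidef := by
    refine PosSemidef.of_dotProduct_mulVec_nonneg hH.1 fun x => ?_
    have h2 : 0 ≤ q H x := by
      by_cases hx : x = 0
      · subst hx
        simp [q]
      · exact (hH.2 x hx).le
    have h3 : (star x ⬝ᵥ (H *ᵥ x)).im = 0 := by
      have h4 : star (star x ⬝ᵥ (H *ᵥ x)) = star x ⬝ᵥ (H *ᵥ x) := by
        rw [← star_dotProduct_star, star_star, star_mulVec, hH.1.eq, dotProduct_comm,
          dotProduct_mulVec]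
        exact dotProduct_comm _ _
      exact Complex.conj_eq_iff_im.mp h4
    rw [Complex.nonneg_iff]
    exact ⟨h2, h3.symm⟩
  obtain ⟨B, hB⟩ : ∃ B : Matrix (Fin n) (Fin n) ℂ, H = Bᴴ * B := by
    obtain ⟨B, hB⟩ := CStarAlgebra.nonneg_iff_eq_star_mul_self.mp h1.nonneg
    exact ⟨B, hB⟩
  have hdet : H.det.re = Complex.normSq B.det := by
    rw [hB, det_mul, det_conjTranspose]
    change ((starRingEnd ℂ) B.det * B.det).re = _
    rw [← Complex.normSq_eq_conj_mul_self, Complex.ofReal_re]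
  refine ⟨B, hB, hdet.symm, ?_, fun x => ?_⟩
  · intro h
    obtain ⟨d, hd1, hd2⟩ := hH.det_pos
    rw [h, map_zero, hd1, Complex.ofReal_re] at hdet
    exact hd2.ne' hdet
  · unfold q
    rw [hB, ← mulVec_mulVec, dotProduct_mulVec, vecMul_conjTranspose, star_star, dotProduct,
      Complex.re_sum]
    refine Finset.sum_congr rfl fun i _ => ?_
    rw [Pi.star_apply]
    change ((starRingEnd ℂ) _ * _).re = _
    rw [← Complex.normSq_eq_conj_mul_self, Complex.ofReal_re, Complex.normSq_eq_norm_sq]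

/-! ### Volumes -/

/-- the volume of a ball -/
theorem vol_ball {n : ℕ} (hn : 1 ≤ n) {s : ℝ} (hs : 0 < s) :
    volume {z : Fin n → ℂ | ∑ i, ‖z i‖ ^ 2 < s} =
      ENNReal.ofReal (s ^ n * (Real.pi ^ n / n.factorial)) := by
  haveI : Nonempty (Fin n) := ⟨⟨0, hn⟩⟩
  have h1 := Complex.volume_sum_rpow_lt (Fin n) (p := 2) (by norm_num) (√s)
  have h2 : {x : Fin n → ℂ | (∑ i, ‖x i‖ ^ (2 : ℝ)) ^ (1 / (2 : ℝ)) < √s} =
      {z : Fin n → ℂ | ∑ i, ‖z i‖ ^ 2 < s} := by
    ext x
    simp only [Set.mem_ofPred_eq]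
    have h3 : ∑ i, ‖x i‖ ^ (2 : ℝ) = ∑ i, ‖x i‖ ^ 2 :=
      Finset.sum_congr rfl fun i _ => Real.rpow_two _
    rw [h3, ← Real.sqrt_eq_rpow]
    exact Real.sqrt_lt_sqrt_iff (Finset.sum_nonneg fun i _ => by positivity)
  rw [h2] at h1
  rw [h1, Fintype.card_fin, ← ENNReal.ofReal_pow (Real.sqrt_nonneg s),
    ← ENNReal.ofReal_mul (by positivity)]
  congr 1
  have h4 : (√s) ^ (2 * n) = s ^ n := by rw [pow_mul, Real.sq_sqrt hs.le]
  have h5 : Real.Gamma (2 / 2 + 1) = 1 := by
    norm_num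
  have h6 : Real.Gamma (2 * n / 2 + 1) = n.factorial := by
    rw [mul_div_cancel_left₀ _ (two_ne_zero)]
    exact Real.Gamma_nat_eq_factorial n
  rw [h4, h5, h6, mul_one]

/-- the real-linear map `a + b i ↦ a + b ω` -/
noncomputable def eis : ℂ →ₗ[ℝ] ℂ where
  toFun z := z.re + z.im * om
  map_add' x y := by
    simp only [Complex.add_re, Complex.add_im, Complex.ofReal_add]
    ring
  map_smul' c x := by
    simp only [RingHom.id_apply, Complex.real_smul, Complex.re_ofReal_mul,
      Complex.im_ofReal_mul, Complex.ofReal_mul]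
    ring

theorem det_eis : LinearMap.det eis = √3 / 2 := by
  rw [← LinearMap.det_toMatrix Complex.basisOneI, Matrix.det_fin_two]
  simp only [LinearMap.toMatrix_apply, Complex.coe_basisOneI, Complex.coe_basisOneI_repr]
  simp [eis, om]

/-- the lattice vectors in real coordinates -/
noncomputable def lv {n : ℕ} (k : Fin n → ℤ × ℤ) : Fin n → ℂ :=
  fun i => ((k i).1 : ℂ) + ((k i).2 : ℂ) * Complex.I

theorem lv_re {n : ℕ} (k : Fin n → ℤ × ℤ) (i : Fin n) : (lv k i).re = (k i).1 := by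
  simp [lv]

theorem lv_im {n : ℕ} (k : Fin n → ℤ × ℤ) (i : Fin n) : (lv k i).im = (k i).2 := by
  simp [lv]

/-- translates of the unit cube -/
def cell {n : ℕ} (k : Fin n → ℤ × ℤ) : Set (Fin n → ℂ) :=
  {z | ∀ i, ⌊(z i).re⌋ = (k i).1 ∧ ⌊(z i).im⌋ = (k i).2}

theorem measurable_cell {n : ℕ} (k : Fin n → ℤ × ℤ) : MeasurableSet (cell k) := by
  have h : cell k = ⋂ i, ({z : Fin n → ℂ | ⌊(z i).re⌋ = (k i).1} ∩
      {z : Fin n → ℂ | ⌊(z i).im⌋ = (k i).2}) := by
    ext z
    simp [cell]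
  rw [h]
  refine MeasurableSet.iInter fun i => MeasurableSet.inter ?_ ?_
  · exact (measurableSet_eq_fun (Int.measurable_floor.comp
      (Complex.measurable_re.comp (measurable_pi_apply i))) measurable_const)
  · exact (measurableSet_eq_fun (Int.measurable_floor.comp
      (Complex.measurable_im.comp (measurable_pi_apply i))) measurable_const)

theorem vol_cell {n : ℕ} : volume (cell (0 : Fin n → ℤ × ℤ)) = 1 := by
  have h1 : cell (0 : Fin n → ℤ × ℤ) = Set.univ.pi fun _ =>
      Complex.measurableEquivRealProd ⁻¹' (Set.Ico (0 : ℝ) 1 ×ˢ Set.Ico (0 : ℝ) 1) := by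
    ext z
    simp only [cell, Set.mem_ofPred_eq, Pi.zero_apply, Prod.fst_zero, Prod.snd_zero, Set.mem_pi,
      Set.mem_univ, forall_true_left, Set.mem_preimage, Set.mem_prod, Set.mem_Ico,
      Complex.measurableEquivRealProd_apply, Int.floor_eq_iff, Int.cast_zero, zero_add]
  rw [h1, volume_pi_pi]
  refine Finset.prod_eq_one fun i _ => ?_
  rw [Complex.volume_preserving_equiv_real_prod.measure_preimage
    ((measurableSet_Ico.prod measurableSet_Ico).nullMeasurableSet), Measure.volume_eq_prod,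
    Measure.prod_prod]
  simp

theorem cell_preimage {n : ℕ} (k : Fin n → ℤ × ℤ) :
    (fun z : Fin n → ℂ => z + lv k) ⁻¹' cell k = cell 0 := by
  ext z
  simp only [cell, Set.mem_preimage, Set.mem_ofPred_eq, Pi.add_apply, Complex.add_re,
    Complex.add_im, lv_re, lv_im, Int.floor_add_intCast, Pi.zero_apply, Prod.fst_zero,
    Prod.snd_zero, add_eq_right]

/-- unfolding of an integral over the cells -/
theorem unfold_int {n : ℕ} (G : (Fin n → ℂ) → ENNReal) (hG : Measurable G) :
    ∫⁻ z, G z = ∫⁻ z in cell 0, ∑' k : Fin n → ℤ × ℤ, G (z + lv k) := by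
  have h1 : ⋃ k : Fin n → ℤ × ℤ, cell k = Set.univ := by
    ext z
    simp only [Set.mem_iUnion, Set.mem_univ, iff_true]
    exact ⟨fun i => (⌊(z i).re⌋, ⌊(z i).im⌋), fun i => ⟨rfl, rfl⟩⟩
  have h2 : Pairwise (Function.onFun Disjoint fun k : Fin n → ℤ × ℤ => cell k) := by
    intro k k' hk
    rw [Function.onFun, Set.disjoint_left]
    intro z hz hz'
    refine hk (funext fun i => Prod.ext ?_ ?_)
    · exact (hz i).1.symm.trans (hz' i).1
    · exact (hz i).2.symm.trans (hz' i).2
  rw [lintegral_tsum (f := fun (k : Fin n → ℤ × ℤ) z => G (z + lv k))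
    (fun k => ((hG.comp (measurable_add_const _)).aemeasurable)), ← setLIntegral_univ, ← h1, lintegral_iUnion measurable_cell h2]
  refine tsum_congr fun k => ?_
  have h3 := (measurePreserving_add_right (volume : Measure (Fin n → ℂ)) (lv k)).setLIntegral_comp_preimage
    (measurable_cell k) hG
  rw [← h3]
  change ∫⁻ a in (fun z : Fin n → ℂ => z + lv k) ⁻¹' cell k, G (a + lv k) = _
  rw [cell_preimage]

/-! ### The packing estimate -/

theorem cplx_pairs {κ : Type} (s : Finset κ) (a : κ → ℂ) :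
    ∑ i ∈ s, ∑ j ∈ s, ‖a i - a j‖ ^ 2 =
      2 * s.card * ∑ i ∈ s, ‖a i‖ ^ 2 - 2 * ‖∑ i ∈ s, a i‖ ^ 2 := by
  simp only [← Complex.normSq_eq_norm_sq]
  have h1 : ∀ x y : ℂ, Complex.normSq (x - y) =
      Complex.normSq x + Complex.normSq y - 2 * (x * (starRingEnd ℂ) y).re :=
    fun x y => Complex.normSq_sub x y
  have h2 : ∑ i ∈ s, ∑ j ∈ s, (a i * (starRingEnd ℂ) (a j)).re =
      Complex.normSq (∑ i ∈ s, a i) := by
    have h3 : ((Complex.normSq (∑ i ∈ s, a i) : ℝ) : ℂ) =
        ∑ i ∈ s, ∑ j ∈ s, a i * (starRingEnd ℂ) (a j) := by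
      rw [← Complex.mul_conj, map_sum, Finset.sum_mul_sum]
    have h4 := congrArg Complex.re h3
    rw [Complex.ofReal_re] at h4
    rw [h4, Complex.re_sum]
    exact Finset.sum_congr rfl fun i _ => (Complex.re_sum s _).symm
  simp only [h1, Finset.sum_sub_distrib, Finset.sum_add_distrib, ← Finset.mul_sum, h2,
    Finset.sum_const, nsmul_eq_mul]
  ring

theorem packing {κ : Type} {n : ℕ} {H B : Matrix (Fin n) (Fin n) ℂ}
    (hq : ∀ x, q H x = ∑ i, ‖(B *ᵥ x) i‖ ^ 2) {h : ℝ} (s : Finset κ) (x : κ → Fin n → ℂ)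
    (hx : ∀ i ∈ s, ∀ j ∈ s, i ≠ j → h ≤ q H (x i - x j)) :
    (s.card : ℝ) * ((s.card : ℝ) - 1) * h ≤ 2 * s.card * ∑ i ∈ s, q H (x i) := by
  classical
  have h1 : ∑ i ∈ s, ∑ j ∈ s, q H (x i - x j) ≤ 2 * s.card * ∑ i ∈ s, q H (x i) := by
    have h2 : ∑ i ∈ s, ∑ j ∈ s, q H (x i - x j) =
        ∑ l, ∑ i ∈ s, ∑ j ∈ s, ‖(B *ᵥ x i) l - (B *ᵥ x j) l‖ ^ 2 := by
      have h9 : ∀ i ∈ s, ∑ j ∈ s, q H (x i - x j) =
          ∑ l, ∑ j ∈ s, ‖(B *ᵥ x i) l - (B *ᵥ x j) l‖ ^ 2 := by
        intro i _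
        rw [Finset.sum_comm]
        refine Finset.sum_congr rfl fun j _ => ?_
        rw [hq, mulVec_sub]
        rfl
      rw [Finset.sum_congr rfl h9, Finset.sum_comm]
    rw [h2]
    have h3 : ∑ i ∈ s, q H (x i) = ∑ l, ∑ i ∈ s, ‖(B *ᵥ x i) l‖ ^ 2 := by
      rw [Finset.sum_comm]
      exact Finset.sum_congr rfl fun i _ => hq _
    rw [h3, Finset.mul_sum]
    refine Finset.sum_le_sum fun l _ => ?_
    rw [cplx_pairs]
    have : 0 ≤ ‖∑ i ∈ s, (B *ᵥ x i) l‖ ^ 2 := by positivity
    linarith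
  refine le_trans ?_ h1
  have h4 : ∀ i ∈ s, ((s.card : ℝ) - 1) * h ≤ ∑ j ∈ s, q H (x i - x j) := by
    intro i hi
    rw [← Finset.add_sum_erase s _ hi]
    have h5 : 0 ≤ q H (x i - x i) := by
      rw [hq]
      exact Finset.sum_nonneg fun _ _ => by positivity
    have h6 : ((s.card : ℝ) - 1) * h ≤ ∑ j ∈ s.erase i, q H (x i - x j) := by
      have h7 : ∑ j ∈ s.erase i, h ≤ ∑ j ∈ s.erase i, q H (x i - x j) :=
        Finset.sum_le_sum fun j hj =>
          hx i hi j (Finset.mem_of_mem_erase hj) (Finset.ne_of_mem_erase hj).symm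
      rw [Finset.sum_const, Finset.card_erase_of_mem hi, nsmul_eq_mul,
        Nat.cast_sub (Finset.card_pos.mpr ⟨i, hi⟩), Nat.cast_one] at h7
      exact h7
    linarith
  have h8 := Finset.sum_le_sum h4
  rw [Finset.sum_const, nsmul_eq_mul] at h8
  calc (s.card : ℝ) * ((s.card : ℝ) - 1) * h = s.card * (((s.card : ℝ) - 1) * h) := by ring
    _ ≤ _ := h8

theorem packing' {κ : Type} {n : ℕ} {H B : Matrix (Fin n) (Fin n) ℂ}
    (hq : ∀ x, q H x = ∑ i, ‖(B *ᵥ x) i‖ ^ 2) {h : ℝ} (hh : 0 < h) (s : Finset κ)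
    (x : κ → Fin n → ℂ) (hx : ∀ i j, i ≠ j → h ≤ q H (x i - x j)) :
    ∑ i ∈ s, max (h / 2 - q H (x i)) 0 ≤ h / 2 := by
  classical
  have h1 : ∑ i ∈ s, max (h / 2 - q H (x i)) 0 =
      ∑ i ∈ s.filter (fun i => q H (x i) < h / 2), (h / 2 - q H (x i)) := by
    rw [Finset.sum_filter]
    refine Finset.sum_congr rfl fun i _ => ?_
    split_ifs with h2
    · exact max_eq_left (by linarith)
    · exact max_eq_right (by linarith)
  rw [h1]
  set t := s.filter (fun i => q H (x i) < h / 2)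
  rcases Nat.eq_zero_or_pos t.card with h0 | h0
  · rw [Finset.card_eq_zero.mp h0, Finset.sum_empty]
    positivity
  have h2 := packing hq t x fun i _ j _ hij => hx i j hij
  have h3 : (0 : ℝ) < t.card := by exact_mod_cast h0
  have h4 : ((t.card : ℝ) - 1) * h ≤ 2 * ∑ i ∈ t, q H (x i) := by
    have h5 : (t.card : ℝ) * (((t.card : ℝ) - 1) * h) ≤
        t.card * (2 * ∑ i ∈ t, q H (x i)) := by linarith
    exact le_of_mul_le_mul_left h5 h3
  rw [Finset.sum_sub_distrib, Finset.sum_const, nsmul_eq_mul]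
  linarith

/-! ### The inequality -/

/-- the map from real coordinates to the coordinates `1, ω` -/
noncomputable def Phi (n : ℕ) : (Fin n → ℂ) →ₗ[ℝ] (Fin n → ℂ) :=
  LinearMap.pi fun i => eis.comp (LinearMap.proj i)

theorem Phi_apply {n : ℕ} (z : Fin n → ℂ) (i : Fin n) :
    Phi n z i = (z i).re + (z i).im * om := rfl

theorem det_Phi (n : ℕ) : LinearMap.det (Phi n) = (√3 / 2) ^ n := by
  unfold Phi
  rw [LinearMap.det_pi]
  simp [det_eis, div_pow]

theorem Phi_lv {n : ℕ} (k : Fin n → ℤ × ℤ) (i : Fin n) :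
    Phi n (lv k) i = (k i).1 + (k i).2 * om := by
  rw [Phi_apply, lv_re, lv_im]
  simp

theorem Phi_inj {n : ℕ} : Function.Injective (Phi n) := by
  have h : LinearMap.det (Phi n) ≠ 0 := by
    rw [det_Phi]
    have := sqrt3_pos
    positivity
  exact (LinearMap.equivOfDetNeZero (Phi n) h).injective

theorem isLat_sub {n : ℕ} (k k' : Fin n → ℤ × ℤ) : IsLat (Phi n (lv k) - Phi n (lv k')) := by
  intro i
  rw [Pi.sub_apply, Phi_lv, Phi_lv]
  exact IsEis.sub ⟨_, _, rfl⟩ ⟨_, _, rfl⟩

theorem lv_inj {n : ℕ} {k k' : Fin n → ℤ × ℤ} (h : lv k = lv k') : k = k' := by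
  funext i
  refine Prod.ext ?_ ?_
  · have h1 := congrArg Complex.re (congrFun h i)
    rw [lv_re, lv_re] at h1
    exact_mod_cast h1
  · have h1 := congrArg Complex.im (congrFun h i)
    rw [lv_im, lv_im] at h1
    exact_mod_cast h1

theorem int_pow (n : ℕ) (R : ℝ) : ∫ t in (0 : ℝ)..R, (R - t) ^ n = R ^ (n + 1) / (n + 1) := by
  have h := intervalIntegral.integral_comp_sub_left (a := 0) (b := R) (fun x : ℝ => x ^ n) R
  rw [sub_self, sub_zero, integral_pow] at h
  rw [h]
  simp

theorem t_BLI : Pool.Agent.K3h69.KB.S_BLI := by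
  intro n H hn hH h hh hmin
  obtain ⟨B, -, hB1, hB2, hq⟩ := exists_factor hH
  have h3 := sqrt3_pos
  have hnB : 0 < Complex.normSq B.det := Complex.normSq_pos.mpr hB2
  set D : ℝ := Complex.normSq B.det * (√3 / 2) ^ n with hD
  have hD0 : 0 < D := by positivity
  set R : ℝ := h / 2 with hR
  have hR0 : 0 < R := by positivity
  have hcont : Continuous fun z => q H (Phi n z) :=
    (continuous_q H).comp (Phi n).continuous_of_finiteDimensional
  -- volumes of the sublevel sets
  let Ψ : (Fin n → ℂ) →ₗ[ℝ] (Fin n → ℂ) := ((toLin' B).restrictScalars ℝ).comp (Phi n)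
  have hΨ : LinearMap.det Ψ = D := by
    have h1 : LinearMap.det ((toLin' B).restrictScalars ℝ) = Complex.normSq B.det := by
      have h2 := LinearMap.det_restrictScalars (R := ℝ) (f := toLin' B)
      rw [LinearMap.det_toLin', Algebra.norm_complex_apply] at h2
      exact h2
    rw [LinearMap.det_comp, h1, det_Phi]
  have hvol : ∀ s : ℝ, 0 < s → volume {z | q H (Phi n z) < s} =
      ENNReal.ofReal (D⁻¹ * (s ^ n * (Real.pi ^ n / n.factorial))) := by
    intro s hs
    have h1 : {z | q H (Phi n z) < s} = Ψ ⁻¹' {z : Fin n → ℂ | ∑ i, ‖z i‖ ^ 2 < s} := by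
      ext z
      rw [Set.mem_ofPred_eq, hq]
      rfl
    rw [h1, Measure.addHaar_preimage_linearMap _ (by rw [hΨ]; exact hD0.ne'), hΨ,
      vol_ball hn hs, ← ENNReal.ofReal_mul (by positivity), abs_of_pos (by positivity)]
  -- the upper bound
  have hmeas : Measurable fun z => ENNReal.ofReal (max (R - q H (Phi n z)) 0) :=
    ((continuous_const.sub hcont).max continuous_const).measurable.ennreal_ofReal
  have hup : ∫⁻ z, ENNReal.ofReal (max (R - q H (Phi n z)) 0) ≤ ENNReal.ofReal R := by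
    rw [unfold_int _ hmeas]
    calc _ ≤ ∫⁻ _ in cell (0 : Fin n → ℤ × ℤ), ENNReal.ofReal R := by
          refine lintegral_mono fun z => ?_
          rw [ENNReal.tsum_eq_iSup_sum]
          refine iSup_le fun s => ?_
          rw [← ENNReal.ofReal_sum_of_nonneg fun _ _ => le_max_right _ _]
          refine ENNReal.ofReal_le_ofReal (packing' hq hh s (fun k => Phi n (z + lv k)) ?_)
          intro k k' hk
          have h1 : Phi n (z + lv k) - Phi n (z + lv k') = Phi n (lv k) - Phi n (lv k') := by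
            rw [map_add, map_add]
            abel
          rw [h1]
          refine hmin _ (isLat_sub k k') fun h2 => hk (lv_inj (Phi_inj (sub_eq_zero.mp h2)))
      _ = ENNReal.ofReal R := by
          rw [setLIntegral_const, vol_cell, mul_one]
  -- the lower bound
  have hlow : ENNReal.ofReal (D⁻¹ * (Real.pi ^ n / n.factorial) * (R ^ (n + 1) / (n + 1))) ≤
      ∫⁻ z, ENNReal.ofReal (max (R - q H (Phi n z)) 0) := by
    have h0 := lintegral_eq_lintegral_meas_lt (f := fun z => max (R - q H (Phi n z)) 0)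
      (volume : Measure (Fin n → ℂ)) (Filter.Eventually.of_forall fun _ => le_max_right _ _)
      ((continuous_const.sub hcont).max continuous_const).aemeasurable
    rw [h0]
    have h1 : ∫⁻ t in Set.Ioo 0 R,
        ENNReal.ofReal (D⁻¹ * (Real.pi ^ n / n.factorial) * (R - t) ^ n) ≤
        ∫⁻ t in Set.Ioi 0, volume {z | t < max (R - q H (Phi n z)) 0} := by
      refine le_trans (le_of_eq ?_) (lintegral_mono_set (s := Set.Ioo 0 R)
        Set.Ioo_subset_Ioi_self)
      refine setLIntegral_congr_fun measurableSet_Ioo fun t ht => ?_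
      have h2 : {z | t < max (R - q H (Phi n z)) 0} = {z | q H (Phi n z) < R - t} := by
        ext z
        simp only [Set.mem_ofPred_eq, lt_max_iff]
        constructor
        · rintro (h4 | h4)
          · linarith
          · linarith [ht.1]
        · intro h4
          left
          linarith
      change _ = volume {z | t < max (R - q H (Phi n z)) 0}
      rw [h2, hvol _ (by linarith [ht.2])]
      congr 1
      ring
    refine le_trans (le_of_eq ?_) h1
    rw [← ofReal_integral_eq_lintegral_ofReal]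
    · rw [← integral_Ioc_eq_integral_Ioo, ← intervalIntegral.integral_of_le hR0.le,
        intervalIntegral.integral_const_mul, int_pow]
    · refine (Continuous.integrableOn_Icc ?_).mono_set Set.Ioo_subset_Icc_self
      fun_prop
    · refine (ae_restrict_iff' measurableSet_Ioo).mpr (Filter.Eventually.of_forall fun t ht => ?_)
      have : 0 < R - t := by linarith [ht.2]
      positivity
  have hfin := (ENNReal.ofReal_le_ofReal_iff hR0.le).mp (hlow.trans hup)
  have h5 : (0 : ℝ) < n.factorial := by exact_mod_cast n.factorial_pos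
  have h6 : (0 : ℝ) < (n : ℝ) + 1 := by positivity
  have h7 : (Real.pi * R) ^ n ≤ ((n : ℝ) + 1) * n.factorial * D := by
    have h8 : D⁻¹ * (Real.pi ^ n / n.factorial) * (R ^ (n + 1) / (n + 1)) =
        R * ((Real.pi * R) ^ n / (((n : ℝ) + 1) * n.factorial * D)) := by
      rw [mul_pow, pow_succ']
      field_simp
    rw [h8] at hfin
    have h9 : (Real.pi * R) ^ n / (((n : ℝ) + 1) * n.factorial * D) ≤ 1 := by
      have h10 : R * ((Real.pi * R) ^ n / (((n : ℝ) + 1) * n.factorial * D)) ≤ R * 1 := by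
        linarith
      exact le_of_mul_le_mul_left h10 hR0
    rwa [div_le_one (by positivity)] at h9
  have h11 : Real.pi / 2 * h = Real.pi * R := by
    rw [hR]
    ring
  rw [h11]
  refine h7.trans (le_of_eq ?_)
  rw [Nat.factorial_succ, ← hB1, hD]
  push_cast
  ring

end Pool.Agent.K3h85.KB
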